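import Pool.Agent.helper89.PU.Spec1
import Pool.Agent.helper65.UM.PHI

/-!
# Project PU (MP_2e0e07_nt), row PHX: the universal polynomial, given by the product formula
-/

set_option autoImplicit false

namespace Pool.Agent.PV

open Matrix Polynomial Pool.Agent.GO Pool.Agent.AR Pool.Agent.RG Pool.Agent.HZ Pool.Agent.DS
  Pool.Agent.AX Pool.Agent.UM Pool.Agent.PU MeasureTheory NumberField

/-- The universal polynomial, over every field and for every factorisation. -/
theorem PHX_key (r : ℕ) (n : Fin r → ℕ) (i₀ : Fin r) :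
    ∃ Φ : (MvPolynomial (Fin r × ℕ) ℤ)[X], ∀ {F : Type} [Field F] (P : Fin r → F[X]) (δ' : F),
      (∀ i, (P i).Monic ∧ (P i).natDegree = n i) → P i₀ = X - C δ' →
      ∀ l : Fin (∑ i, n i) → F, ∏ i, P i = ∏ j, (X - C (l j)) →
      Φ.map (MvPolynomial.eval₂Hom (Int.castRingHom F) fun k : Fin r × ℕ => (P k.1).coeff k.2) =
        PHI_G δ' l := by
  classical
  let δ : MvPolynomial (Fin r × ℕ) ℤ := -MvPolynomial.X (i₀, 0)
  obtain ⟨Ψ, hΨ⟩ := sym_transfer.{0, 0} (E := MvPolynomial (Fin r × ℕ) ℤ) (∑ i, n i)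
    (PHI_G (MvPolynomial.C δ) (fun i : Fin (∑ i, n i) =>
      (MvPolynomial.X i : MvPolynomial (Fin (∑ i, n i)) (MvPolynomial (Fin r × ℕ) ℤ)))) (by
      intro k σ
      have h1 := PHI_map ((MvPolynomial.rename σ : MvPolynomial (Fin (∑ i, n i)) (MvPolynomial (Fin r × ℕ) ℤ) →ₐ[_] _) :
        MvPolynomial (Fin (∑ i, n i)) (MvPolynomial (Fin r × ℕ) ℤ) →+*
          MvPolynomial (Fin (∑ i, n i)) (MvPolynomial (Fin r × ℕ) ℤ)) (MvPolynomial.C δ)
        (fun i : Fin (∑ i, n i) => (MvPolynomial.X i : MvPolynomial (Fin (∑ i, n i)) (MvPolynomial (Fin r × ℕ) ℤ)))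
      have h2 := congrArg (fun p : (MvPolynomial (Fin (∑ i, n i)) (MvPolynomial (Fin r × ℕ) ℤ))[X] => p.coeff k) h1
      simp only [Polynomial.coeff_map, RingHom.coe_coe, MvPolynomial.rename_X, MvPolynomial.rename_C] at h2
      rw [h2, PHI_perm (MvPolynomial.C δ) (fun i : Fin (∑ i, n i) =>
        (MvPolynomial.X i : MvPolynomial (Fin (∑ i, n i)) (MvPolynomial (Fin r × ℕ) ℤ))) σ])
  refine ⟨Ψ.map (MvPolynomial.eval₂Hom (RingHom.id (MvPolynomial (Fin r × ℕ) ℤ)) (prodCoeff ℤ n)), ?_⟩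
  intro F _ P δ' hP hi₀ l hl
  let ι : MvPolynomial (Fin r × ℕ) ℤ →+* F :=
    MvPolynomial.eval₂Hom (Int.castRingHom F) fun k : Fin r × ℕ => (P k.1).coeff k.2
  have hιδ : ι δ = δ' := by
    simp only [ι, δ, map_neg, MvPolynomial.coe_eval₂Hom, MvPolynomial.eval₂_X]
    rw [hi₀]
    simp
  show (Ψ.map (MvPolynomial.eval₂Hom (RingHom.id (MvPolynomial (Fin r × ℕ) ℤ)) (prodCoeff ℤ n))).map ι =
      PHI_G δ' l
  rw [Polynomial.map_map]
  have h1 : ι.comp (MvPolynomial.eval₂Hom (RingHom.id (MvPolynomial (Fin r × ℕ) ℤ)) (prodCoeff ℤ n)) =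
      MvPolynomial.eval₂Hom ι fun k => (∏ i, (X - C (l i))).coeff k := by
    apply MvPolynomial.ringHom_ext
    · intro x
      simp
    · intro k
      simp only [RingHom.comp_apply, MvPolynomial.coe_eval₂Hom, MvPolynomial.eval₂_X]
      rw [← hl]
      exact prodCoeff_eval n k (Int.castRingHom F) P (fun i => (hP i).2.le)
  rw [h1, hΨ ι l, PHI_map]
  simp only [MvPolynomial.coe_eval₂Hom, MvPolynomial.eval₂_X, MvPolynomial.eval₂_C]
  rw [hιδ]

theorem PHX : PHX_stmt := by
  intro r n i₀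
  classical
  obtain ⟨Φ, hΦ⟩ := PHX_key r n i₀
  refine ⟨Φ, ?_, ?_⟩
  · intro F _ _ P δ' hP hi₀
    have hmonic : (∏ i, P i).Monic := monic_prod_of_monic _ _ fun i _ => (hP i).1
    have hdeg : (∏ i, P i).natDegree = ∑ i, n i := by
      rw [natDegree_prod_of_monic _ _ fun i _ => (hP i).1]
      exact Finset.sum_congr rfl fun i _ => (hP i).2
    obtain ⟨l, hl⟩ := exists_roots (∑ i, n i) (∏ i, P i) hmonic hdeg
    have key := hΦ P δ' hP hi₀ l hl
    have hroot : ∀ x, (∏ i, P i).IsRoot x ↔ ∃ i, x = l i := by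
      intro x
      rw [hl, Polynomial.IsRoot, Polynomial.eval_prod, Finset.prod_eq_zero_iff]
      constructor
      · rintro ⟨i, -, hi⟩
        rw [Polynomial.eval_sub, Polynomial.eval_X, Polynomial.eval_C, sub_eq_zero] at hi
        exact ⟨i, hi⟩
      · rintro ⟨i, hi⟩
        refine ⟨i, Finset.mem_univ i, ?_⟩
        rw [Polynomial.eval_sub, Polynomial.eval_X, Polynomial.eval_C, hi, sub_self]
    refine ⟨fun t => ?_, fun h0 => ?_⟩
    · have hev : ev Φ P t = (PHI_G δ' l).eval t := by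
        rw [← key]
        rfl
      rw [hev, PHI_eval, Finset.prod_eq_zero_iff]
      constructor
      · rintro ⟨⟨i, j⟩, -, hij⟩
        obtain ⟨α, β, hs, hp⟩ := PHI_two t δ'
        have h2 : (α * l j - β * l i) * (α * l i - β * l j) = 0 := by
          rw [← hs, ← hp] at hij
          simp only at hij
          linear_combination hij
        rcases mul_eq_zero.mp h2 with h3 | h3
        · exact ⟨α, β, l i, l j, hs, hp, (hroot _).mpr ⟨i, rfl⟩, (hroot _).mpr ⟨j, rfl⟩, sub_eq_zero.mp h3⟩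
        · exact ⟨α, β, l j, l i, hs, hp, (hroot _).mpr ⟨j, rfl⟩, (hroot _).mpr ⟨i, rfl⟩, sub_eq_zero.mp h3⟩
      · rintro ⟨α, β, x, y, hs, hp, hx, hy, hxy⟩
        obtain ⟨i, rfl⟩ := (hroot x).mp hx
        obtain ⟨j, rfl⟩ := (hroot y).mp hy
        refine ⟨(i, j), Finset.mem_univ _, ?_⟩
        simp only
        rw [← hs, ← hp]
        linear_combination (α * l i - β * l j) * hxy
    · show Φ.map (MvPolynomial.eval₂Hom (Int.castRingHom F) fun k : Fin r × ℕ => (P k.1).coeff k.2) ≠ 0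
      rw [key]
      have hl0 : ∀ i, l i ≠ 0 := by
        intro i h1
        apply h0
        rw [Polynomial.coeff_zero_eq_eval_zero]
        exact (hroot 0).mpr ⟨i, h1.symm⟩
      unfold PHI_G
      rw [Finset.prod_ne_zero_iff]
      rintro ⟨i, j⟩ - h1
      have h2 := congrArg (fun p : F[X] => p.coeff 2) h1
      simp only [Polynomial.coeff_sub, Polynomial.coeff_C_mul, Polynomial.coeff_X_pow, Polynomial.coeff_zero,
        Polynomial.coeff_C] at h2
      norm_num at h2
      rcases h2 with h3 | h3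
      · exact hl0 i h3
      · exact hl0 j h3
  · intro F _ P δ' hP hi₀ m _ l hl t
    have hdeg : (∏ i, P i).natDegree = ∑ i, n i := by
      rw [natDegree_prod_of_monic _ _ fun i _ => (hP i).1]
      exact Finset.sum_congr rfl fun i _ => (hP i).2
    have hdeg2 : (∏ i, P i).natDegree = Fintype.card m := by
      rw [hl, natDegree_prod_of_monic _ _ fun i _ => monic_X_sub_C (l i)]
      simp
    let e : Fin (∑ i, n i) ≃ m := (Fintype.equivFinOfCardEq (hdeg2.symm.trans hdeg)).symm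
    have hl2 : ∏ i, P i = ∏ j, (X - C ((fun j => l (e j)) j)) := by
      rw [hl]
      exact (Fintype.prod_equiv e _ _ fun j => rfl).symm
    have key := hΦ P δ' hP hi₀ (fun j => l (e j)) hl2
    have hev : ev Φ P t = (PHI_G δ' (fun j => l (e j))).eval t := by
      rw [← key]
      rfl
    rw [hev, PHI_eval, Fintype.prod_prod_type]
    exact Fintype.prod_equiv e _ _ fun i => Fintype.prod_equiv e _ _ fun j => rfl

end Pool.Agent.PV
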